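import Mathlib

set_option autoImplicit false

namespace Pool.Agent.MP_7b4824_gt

open Set

universe v

variable {I : Type v} [LinearOrder I] [WellFoundedLT I]

/-- closing off under an inflationary map in a well order whose countable subsets are bounded -/
theorem exists_closure (hb : ∀ s : Set I, s.Countable → ∃ b, ∀ a ∈ s, a < b)
    (F : I → I) :
    ∃ L : I → I, (∀ β k, F^[k] β < L β) ∧ (∀ β b, b < L β → ∃ k, b ≤ F^[k] β) := by
  have key : ∀ β : I, ∃ l : I, (∀ k, F^[k] β < l) ∧ (∀ b, b < l → ∃ k, b ≤ F^[k] β) := by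
    intro β
    have hne : {l : I | ∀ k, F^[k] β < l}.Nonempty := by
      obtain ⟨b, hb'⟩ := hb (Set.range fun k : ℕ => F^[k] β) (Set.countable_range _)
      exact ⟨b, fun k => hb' _ ⟨k, rfl⟩⟩
    refine ⟨wellFounded_lt.min _ hne, wellFounded_lt.min_mem _ hne, ?_⟩
    intro b hbl
    by_contra hcon
    push Not at hcon
    exact wellFounded_lt.not_lt_min {l : I | ∀ k, F^[k] β < l} (x := b) hcon hbl
  choose L h1 h2 using key
  exact ⟨L, h1, h2⟩

omit [WellFoundedLT I] in
/-- a ladder: a cofinal subset of a countable initial segment with finite initial segments -/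
theorem exists_ladder (d : I) (hc : (Iio d).Countable) :
    ∃ A : Set I, A ⊆ Iio d ∧ (∀ b < d, ∃ a ∈ A, b ≤ a) ∧ (∀ b < d, (A ∩ Iio b).Finite) := by
  rcases (Iio d).eq_empty_or_nonempty with h | h
  · refine ⟨∅, by simp, ?_, by simp⟩
    intro b hb
    have : b ∈ Iio d := hb
    rw [h] at this
    exact this.elim
  · obtain ⟨f, hf⟩ := hc.exists_eq_range h
    have hfd : ∀ n, f n < d := fun n => by
      have : f n ∈ Iio d := by rw [hf]; exact ⟨n, rfl⟩
      exact this
    let g : ℕ → I := fun n => Nat.rec (f 0) (fun k x => max x (f (k + 1))) n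
    have hg0 : g 0 = f 0 := rfl
    have hgs : ∀ n, g (n + 1) = max (g n) (f (n + 1)) := fun n => rfl
    have hgd : ∀ n, g n < d := by
      intro n
      induction n with
      | zero => exact hfd 0
      | succ n ih => rw [hgs]; exact max_lt ih (hfd _)
    have hmono : Monotone g := monotone_nat_of_le_succ fun n => by rw [hgs]; exact le_max_left _ _
    have hfg : ∀ n, f n ≤ g n := by
      intro n
      cases n with
      | zero => exact le_rfl
      | succ n => rw [hgs]; exact le_max_right _ _
    refine ⟨Set.range g, ?_, ?_, ?_⟩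
    · rintro _ ⟨n, rfl⟩; exact hgd n
    · intro b hb
      have : b ∈ Set.range f := by rw [← hf]; exact hb
      obtain ⟨n, rfl⟩ := this
      exact ⟨g n, ⟨n, rfl⟩, hfg n⟩
    · intro b hb
      have : b ∈ Set.range f := by rw [← hf]; exact hb
      obtain ⟨n, rfl⟩ := this
      refine ((Set.finite_lt_nat n).image g).subset ?_
      rintro _ ⟨⟨k, rfl⟩, hk⟩
      refine ⟨k, ?_, rfl⟩
      by_contra hkn
      have hnk : n ≤ k := not_lt.mp hkn
      exact absurd (lt_of_lt_of_le hk ((hfg n).trans (hmono hnk))) (lt_irrefl _)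

end Pool.Agent.MP_7b4824_gt
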