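import Mathlib
import Pool.Agent.MP_7b4824_gt.Order

set_option autoImplicit false

namespace Pool.Agent.MP_7b4824_gt

open Set

universe u v

variable {I : Type v} [LinearOrder I] {G : I → Type u} [∀ i, Group (G i)]

/-- truncation below `b` -/
def trunc (b : I) : (∀ i, G i) →* (∀ i, G i) where
  toFun x := fun i => if i < b then x i else 1
  map_one' := by funext i; simp
  map_mul' x y := by
    funext i
    by_cases h : i < b <;> simp [h]

theorem trunc_apply (b : I) (x : ∀ i, G i) (i : I) :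
    trunc b x i = if i < b then x i else 1 := rfl

/-- the support of `x` is bounded below `d` -/
def Bd (d : I) (x : ∀ i, G i) : Prop := ∃ b < d, ∀ a, b ≤ a → a < d → x a = 1

theorem Bd.mul {d : I} {x y : ∀ i, G i} (hx : Bd d x) (hy : Bd d y) : Bd d (x * y) := by
  obtain ⟨b, hb, h1⟩ := hx
  obtain ⟨c, hc, h2⟩ := hy
  refine ⟨max b c, max_lt hb hc, fun a ha had => ?_⟩
  simp [h1 a ((le_max_left _ _).trans ha) had, h2 a ((le_max_right _ _).trans ha) had]

theorem Bd.inv {d : I} {x : ∀ i, G i} (hx : Bd d x) : Bd d x⁻¹ := by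
  obtain ⟨b, hb, h1⟩ := hx
  exact ⟨b, hb, fun a ha had => by simp [h1 a ha had]⟩

/-- elements with support bounded below `d` -/
def bdSub (d : I) (hd : ∃ b, b < d) : Subgroup (∀ i, G i) where
  carrier := {x | Bd d x}
  mul_mem' := Bd.mul
  one_mem' := by
    obtain ⟨b, hb⟩ := hd
    exact ⟨b, hb, fun _ _ _ => rfl⟩
  inv_mem' := Bd.inv

/-- limit points of the index order -/
def IsLim (d : I) : Prop := (∃ b, b < d) ∧ ∀ b < d, ∃ c, b < c ∧ c < d

/-- elements whose support has finitely many limit points -/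
def finLim : Subgroup (∀ i, G i) where
  carrier := {x | {d | IsLim d ∧ ¬ Bd d x}.Finite}
  mul_mem' := by
    intro x y hx hy
    refine (hx.union hy).subset ?_
    rintro d ⟨hd, hxy⟩
    by_contra hcon
    simp only [mem_union, mem_ofPred_eq, not_or, not_and, not_not] at hcon
    exact hxy ((hcon.1 hd).mul (hcon.2 hd))
  one_mem' := by
    refine Set.finite_empty.subset ?_
    rintro d ⟨hd, h1⟩
    obtain ⟨b, hb⟩ := hd.1
    exact h1 ⟨b, hb, fun _ _ _ => rfl⟩
  inv_mem' := by
    intro x hx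
    refine hx.subset ?_
    rintro d ⟨hd, h1⟩
    exact ⟨hd, fun h => h1 h.inv⟩

/-- elements of countable support -/
def ctblSub : Subgroup (∀ i, G i) where
  carrier := {x | {i | x i ≠ 1}.Countable}
  mul_mem' := by
    intro x y hx hy
    refine (hx.union hy).mono ?_
    intro i hi
    by_contra hcon
    simp only [mem_union, mem_ofPred_eq, not_or, not_not] at hcon
    exact hi (by simp [hcon.1, hcon.2])
  one_mem' := by simp
  inv_mem' := by
    intro x hx
    refine hx.mono ?_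
    intro i hi h
    exact hi (by simp [h])

open Classical in
/-- `g` on `B`, trivial elsewhere -/
noncomputable def ind (g : ∀ i, G i) (B : Set I) : ∀ i, G i := fun i => if i ∈ B then g i else 1

theorem trunc_ind (g : ∀ i, G i) (B : Set I) (b : I) : trunc b (ind g B) = ind g (B ∩ Iio b) := by
  funext i
  by_cases h : i < b <;> by_cases h2 : i ∈ B <;> simp [trunc_apply, ind, h, h2]

theorem countable_closure {K : Type*} [Group K] {s : Set K} (hs : s.Countable) :
    (Subgroup.closure s : Set K).Countable := by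
  have := hs.to_subtype
  rw [FreeGroup.closure_eq_range, MonoidHom.coe_range]
  exact Set.countable_range _

theorem exists_bad_subgroup (hc : ∀ d : I, (Iio d).Countable) (g : ∀ i, G i) (hg : ∀ i, g i ≠ 1) :
    ∃ H : Subgroup (∀ i, G i), (∀ x ∈ H, {i | x i ≠ 1}.Countable) ∧
      (∀ b, ∀ x ∈ H, trunc b x ∈ H) ∧ (∀ b, (trunc b '' (H : Set (∀ i, G i))).Countable) ∧
      (∀ x ∈ H, {d | IsLim d ∧ ¬ Bd d x}.Finite) ∧ (∀ d, ∃ x ∈ H, ¬ Bd d x) := by
  choose A hA1 hA2 hA3 using fun d : I => exists_ladder d (hc d)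
  let T : Set (∀ i, G i) := {x | ∃ d c, x = ind g (A d ∩ Iio c)}
  have hT : ∀ b, ∀ x ∈ T, trunc b x ∈ T := by
    rintro b x ⟨d, c, rfl⟩
    refine ⟨d, min c b, ?_⟩
    rw [trunc_ind, inter_assoc, Iio_inter_Iio]
  refine ⟨Subgroup.closure T, ?_, ?_, ?_, ?_, ?_⟩
  · have : Subgroup.closure T ≤ ctblSub := by
      rw [Subgroup.closure_le]
      rintro x ⟨d, c, rfl⟩
      refine (hc c).mono ?_
      intro i hi
      by_contra hcon
      apply hi
      have : i ∉ A d ∩ Iio c := fun h => hcon h.2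
      simp only [ind, if_neg this]
    exact fun x hx => this hx
  · intro b x hx
    have : (Subgroup.closure T).map (trunc b) ≤ Subgroup.closure T := by
      rw [MonoidHom.map_closure]
      apply Subgroup.closure_mono
      rintro _ ⟨y, hy, rfl⟩
      exact hT b y hy
    exact this ⟨x, hx, rfl⟩
  · intro b
    rw [← Subgroup.coe_map, MonoidHom.map_closure]
    apply countable_closure
    have h1 : (ind g '' {B : Set I | B.Finite ∧ B ⊆ Iio b}).Countable :=
      (countable_ofPred_finite_subset (hc b)).image _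
    have h2 : ((fun d => ind g (A d)) '' (insert b (Iio b))).Countable :=
      ((hc b).insert b).image _
    refine (h1.union h2).mono ?_
    rintro _ ⟨_, ⟨d, c, rfl⟩, rfl⟩
    rw [trunc_ind, inter_assoc, Iio_inter_Iio]
    by_cases h : min c b < d
    · left
      refine ⟨A d ∩ Iio (min c b), ⟨hA3 d _ h, ?_⟩, rfl⟩
      intro a ha
      exact lt_of_lt_of_le ha.2 (min_le_right _ _)
    · right
      have hd : d ≤ min c b := not_lt.mp h
      refine ⟨d, ?_, ?_⟩
      · rcases (hd.trans (min_le_right _ _)).eq_or_lt with h | h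
        · exact Or.inl h
        · exact Or.inr h
      · have : A d ∩ Iio (min c b) = A d := by
          apply inter_eq_left.mpr
          intro a ha
          exact lt_of_lt_of_le (hA1 d ha) hd
        simp only [this]
  · have : Subgroup.closure T ≤ finLim := by
      rw [Subgroup.closure_le]
      rintro x ⟨d, c, rfl⟩
      refine (Set.finite_singleton d).subset ?_
      rintro e ⟨he, hB⟩
      by_contra hne
      apply hB
      rcases lt_or_gt_of_ne (show e ≠ d from hne) with h | h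
      · have hfin := hA3 d e h
        have : ∃ b < e, ∀ a ∈ A d ∩ Iio e, a < b := by
          rcases (A d ∩ Iio e).eq_empty_or_nonempty with h0 | h0
          · obtain ⟨b, hb⟩ := he.1
            exact ⟨b, hb, by simp [h0]⟩
          · obtain ⟨m, hm, hmax⟩ := Set.exists_max_image _ id hfin h0
            obtain ⟨b, hb1, hb2⟩ := he.2 m hm.2
            exact ⟨b, hb2, fun a ha => lt_of_le_of_lt (hmax a ha) hb1⟩
        obtain ⟨b, hb, hb'⟩ := this
        refine ⟨b, hb, fun a ha hae => ?_⟩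
        have : a ∉ A d ∩ Iio c := fun h' => absurd (hb' a ⟨h'.1, hae⟩) (not_lt.mpr ha)
        simp only [ind, if_neg this]
      · refine ⟨d, h, fun a ha _ => ?_⟩
        have : a ∉ A d ∩ Iio c := fun h' => absurd (hA1 d h'.1) (not_lt.mpr ha)
        simp only [ind, if_neg this]
    exact fun x hx => this hx
  · intro d
    refine ⟨ind g (A d ∩ Iio d), Subgroup.subset_closure ⟨d, d, rfl⟩, ?_⟩
    rintro ⟨b, hb, h⟩
    obtain ⟨a, ha, hba⟩ := hA2 d b hb
    have h1 := h a hba (hA1 d ha)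
    have : a ∈ A d ∩ Iio d := ⟨ha, hA1 d ha⟩
    simp only [ind, if_pos this] at h1
    exact hg a h1

theorem not_dense_of_sep [WellFoundedLT I] (hb : ∀ s : Set I, s.Countable → ∃ b, ∀ a ∈ s, a < b)
    (H : Subgroup (∀ i, G i))
    (h1 : ∀ b, ∀ x ∈ H, trunc b x ∈ H) (h2 : ∀ b, (trunc b '' (H : Set (∀ i, G i))).Countable)
    (h3 : ∀ x ∈ H, {d | IsLim d ∧ ¬ Bd d x}.Finite) (h4 : ∀ d, ∃ x ∈ H, ¬ Bd d x)
    (S : Set (∀ i, G i)) (hS : ∀ s ∈ S, s ∈ H)
    (sep : ∀ y ∈ H, y ≠ 1 → ∃ b, ∀ s ∈ S, (∀ a < b, s a = y a) → s = y) :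
    ∃ d, ∃ x ∈ H, ∀ z ∈ Subgroup.closure S, ¬ ∀ a < d, z a = x a := by
  classical
  have sep' : ∀ y : ∀ i, G i, ∃ b : I, y ∈ H → y ≠ 1 →
      ∀ s ∈ S, (∀ a < b, s a = y a) → s = y := by
    intro y
    by_cases hy : y ∈ H ∧ y ≠ 1
    · obtain ⟨b, hb'⟩ := sep y hy.1 hy.2
      exact ⟨b, fun _ _ => hb'⟩
    · obtain ⟨b, -⟩ := hb ∅ countable_empty
      exact ⟨b, fun h h' => (hy ⟨h, h'⟩).elim⟩
  choose γ hγ using sep'
  have hF : ∀ β : I, ∃ f : I, β < f ∧ ∀ x ∈ H, γ (trunc β x) < f := by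
    intro β
    obtain ⟨f, hf⟩ := hb (insert β (γ '' (trunc β '' (H : Set (∀ i, G i)))))
      (((h2 β).image γ).insert β)
    exact ⟨f, hf β (mem_insert _ _), fun x hx => hf _ (Or.inr ⟨_, ⟨x, hx, rfl⟩, rfl⟩)⟩
  choose F hF1 hF2 using hF
  have claimA : ∀ s ∈ S, ∀ β, (∃ a < β, s a ≠ 1) →
      (∀ a, β ≤ a → s a = 1) ∨ ∃ a, β ≤ a ∧ a < F β ∧ s a ≠ 1 := by
    intro s hs β hne
    by_cases hcon : ∃ a, β ≤ a ∧ a < F β ∧ s a ≠ 1
    · exact Or.inr hcon
    left
    push Not at hcon
    have hy1 : trunc β s ≠ 1 := by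
      obtain ⟨a, ha, hsa⟩ := hne
      intro h
      have := congrFun h a
      rw [trunc_apply, if_pos ha] at this
      exact hsa this
    have := hγ (trunc β s) (h1 β s (hS s hs)) hy1 s hs (by
      intro a ha
      rw [trunc_apply]
      split_ifs with h
      · rfl
      · exact hcon a (not_lt.mp h) (ha.trans (hF2 β s (hS s hs))))
    intro a ha
    have h' := congrFun this a
    rw [trunc_apply, if_neg (not_lt.mpr ha)] at h'
    exact h'
  obtain ⟨L, hL1, hL2⟩ := exists_closure hb F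
  have hFk : ∀ β k, β ≤ F^[k] β := by
    intro β k
    induction k with
    | zero => exact le_rfl
    | succ k ih => rw [Function.iterate_succ_apply']; exact ih.trans (hF1 _).le
  have hLlt : ∀ β, β < L β := fun β => hL1 β 0
  have hLim : ∀ β, IsLim (L β) := by
    intro β
    refine ⟨⟨β, hLlt β⟩, fun b hbL => ?_⟩
    obtain ⟨k, hk⟩ := hL2 β b hbL
    refine ⟨F^[k + 1] β, ?_, hL1 β _⟩
    rw [Function.iterate_succ_apply']
    exact lt_of_le_of_lt hk (hF1 _)
  have claimB : ∀ s ∈ S, ∀ β, (∃ a < β, s a ≠ 1) →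
      (∃ c < L β, ∀ a, c ≤ a → s a = 1) ∨ ¬ Bd (L β) s := by
    intro s hs β hne
    by_cases hcon : ∃ c < L β, ∀ a, c ≤ a → s a = 1
    · exact Or.inl hcon
    right
    rintro ⟨b, hbL, hB⟩
    obtain ⟨k, hk⟩ := hL2 β b hbL
    obtain ⟨a0, ha0, hsa0⟩ := hne
    rcases claimA s hs (F^[k] β) ⟨a0, lt_of_lt_of_le ha0 (hFk β k), hsa0⟩ with h | ⟨a, h5, h6, h7⟩
    · exact hcon ⟨_, hL1 β k, h⟩
    · apply h7
      apply hB a (hk.trans h5)
      have := hL1 β (k + 1)
      rw [Function.iterate_succ_apply'] at this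
      exact h6.trans this
  obtain ⟨M, hM1, hM2⟩ := exists_closure hb L
  obtain ⟨β0, -⟩ := hb ∅ countable_empty
  have hmono : StrictMono fun n : ℕ => L^[n] β0 := by
    apply strictMono_nat_of_lt_succ
    intro n
    rw [Function.iterate_succ_apply']
    exact hLlt _
  have claimC : ∀ s ∈ S, Bd (M β0) s := by
    intro s hs
    by_cases h0 : ∀ a < M β0, s a = 1
    · exact ⟨β0, hM1 β0 0, fun a _ ha => h0 a ha⟩
    push Not at h0
    obtain ⟨a0, ha0, hsa0⟩ := h0
    obtain ⟨n, hn⟩ := hM2 β0 a0 ha0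
    by_contra hnb
    apply (h3 s (hS s hs)).not_infinite
    have hall : ∀ m : ℕ, L^[n + 2 + m] β0 ∈ {d | IsLim d ∧ ¬ Bd d s} := by
      intro m
      have e1 : L^[n + 2 + m] β0 = L (L^[n + 1 + m] β0) := by
        rw [show n + 2 + m = (n + 1 + m) + 1 by omega, Function.iterate_succ_apply']
      rw [e1]
      refine ⟨hLim _, ?_⟩
      have hlt : a0 < L^[n + 1 + m] β0 := lt_of_le_of_lt hn (hmono (by omega))
      rcases claimB s hs _ ⟨a0, hlt, hsa0⟩ with ⟨c, hc1, hc2⟩ | h
      · exfalso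
        apply hnb
        refine ⟨c, hc1.trans ?_, fun a ha _ => hc2 a ha⟩
        rw [← e1]
        exact hM1 β0 _
      · exact h
    exact Set.infinite_of_injective_forall_mem (f := fun m : ℕ => L^[n + 2 + m] β0)
      (fun m m' h => by have := hmono.injective h; omega) hall
  obtain ⟨x, hx, hxB⟩ := h4 (M β0)
  refine ⟨M β0, x, hx, fun z hz hzx => ?_⟩
  have : Subgroup.closure S ≤ bdSub (M β0) ⟨β0, hM1 β0 0⟩ := by
    rw [Subgroup.closure_le]
    exact claimC
  obtain ⟨b, hb1, hb2⟩ := this hz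
  exact hxB ⟨b, hb1, fun a ha ha' => by rw [← hzx a ha']; exact hb2 a ha ha'⟩

end Pool.Agent.MP_7b4824_gt
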