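import Mathlib
import Pool.Agent.MP_7b4824_gt.Core

set_option autoImplicit false

namespace Pool.Agent.MP_7b4824_gt

open Set Filter Topology

universe u v

variable {I : Type v} [LinearOrder I] {G : I → Type u} [∀ i, Group (G i)]

/-- the group filter basis of the tails -/
@[instance_reducible]
def starBasis [Nonempty I] (G : I → Type u) [∀ i, Group (G i)] : GroupFilterBasis (∀ i, G i) where
  sets := Set.range fun a : I => {x : ∀ i, G i | ∀ b < a, x b = 1}
  nonempty := Set.range_nonempty _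
  inter_sets := by
    rintro _ _ ⟨a, rfl⟩ ⟨b, rfl⟩
    refine ⟨_, ⟨max a b, rfl⟩, ?_⟩
    intro x hx
    exact ⟨fun c hc => hx c (lt_of_lt_of_le hc (le_max_left _ _)),
      fun c hc => hx c (lt_of_lt_of_le hc (le_max_right _ _))⟩
  one' := by
    rintro _ ⟨a, rfl⟩ b _
    rfl
  mul' := by
    rintro _ ⟨a, rfl⟩
    refine ⟨_, ⟨a, rfl⟩, ?_⟩
    rintro _ ⟨x, hx, y, hy, rfl⟩ b hb
    simp [hx b hb, hy b hb]
  inv' := by
    rintro _ ⟨a, rfl⟩
    refine ⟨_, ⟨a, rfl⟩, ?_⟩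
    intro x hx b hb
    simp [hx b hb]
  conj' := by
    rintro x _ ⟨a, rfl⟩
    refine ⟨_, ⟨a, rfl⟩, ?_⟩
    intro y hy b hb
    simp [hy b hb]

theorem exists_star_topology [Nonempty I] (G : I → Type u) [∀ i, Group (G i)] :
    ∃ _ : TopologicalSpace (∀ i, G i), IsTopologicalGroup (∀ i, G i) ∧
      (𝓝 (1 : ∀ i, G i)).HasBasis (fun _ : I => True) (fun a => {x | ∀ b < a, x b = 1}) := by
  refine ⟨(starBasis G).topology, (starBasis G).isTopologicalGroup, ?_⟩
  have h := (starBasis G).nhds_one_hasBasis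
  refine h.to_hasBasis ?_ ?_
  · rintro _ ⟨a, rfl⟩
    exact ⟨a, trivial, subset_rfl⟩
  · intro a _
    exact ⟨_, ⟨a, rfl⟩, subset_rfl⟩

theorem nhds_basis [TopologicalSpace (∀ i, G i)] [IsTopologicalGroup (∀ i, G i)]
    (hbasis : (𝓝 (1 : ∀ i, G i)).HasBasis (fun _ : I => True) (fun a => {x | ∀ b < a, x b = 1}))
    (y : ∀ i, G i) :
    (𝓝 y).HasBasis (fun _ : I => True) (fun a => {x | ∀ b < a, x b = y b}) := by
  rw [← nhds_translation_mul_inv y]
  have := hbasis.comap (· * y⁻¹)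
  convert this using 2
  ext x
  simp [mul_inv_eq_one]

theorem nhds_basis_sub [TopologicalSpace (∀ i, G i)] [IsTopologicalGroup (∀ i, G i)]
    (hbasis : (𝓝 (1 : ∀ i, G i)).HasBasis (fun _ : I => True) (fun a => {x | ∀ b < a, x b = 1}))
    (H : Subgroup (∀ i, G i)) (y : H) :
    (𝓝 y).HasBasis (fun _ : I => True) (fun a => {x : H | ∀ b < a, x.1 b = y.1 b}) := by
  rw [nhds_subtype]
  exact (nhds_basis hbasis y.1).comap _

theorem no_suitable [WellFoundedLT I] [∀ i, Nontrivial (G i)]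
    (hc : ∀ d : I, (Iio d).Countable) (hb : ∀ s : Set I, s.Countable → ∃ b, ∀ a ∈ s, a < b)
    [TopologicalSpace (∀ i, G i)] [IsTopologicalGroup (∀ i, G i)]
    (hbasis : (𝓝 (1 : ∀ i, G i)).HasBasis (fun _ : I => True) (fun a => {x | ∀ b < a, x b = 1})) :
    ∃ H : Subgroup (∀ i, G i), (∀ x ∈ H, {i | x i ≠ 1}.Countable) ∧
      ¬ ∃ S : Set H, DiscreteTopology S ∧ IsClosed (S ∪ {1}) ∧
        Dense (Subgroup.closure S : Set H) := by
  choose g hg using fun i => exists_ne (1 : G i)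
  obtain ⟨H, h0, h1, h2, h3, h4⟩ := exists_bad_subgroup hc g hg
  refine ⟨H, h0, ?_⟩
  rintro ⟨S, hd, hcl, hdense⟩
  obtain ⟨d, x, hx, hno⟩ := not_dense_of_sep hb H h1 h2 h3 h4 (Subtype.val '' S)
    (by rintro _ ⟨s, -, rfl⟩; exact s.2) (by
      intro y hy hy1
      have hB := nhds_basis_sub hbasis H ⟨y, hy⟩
      by_cases hyS : (⟨y, hy⟩ : H) ∈ S
      · obtain ⟨U, hU, hUS⟩ := nhds_inter_eq_singleton_of_mem_discrete ⟨hd⟩ hyS
        obtain ⟨b, -, hbU⟩ := hB.mem_iff.mp hU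
        refine ⟨b, ?_⟩
        rintro _ ⟨s, hs, rfl⟩ hsy
        have : s ∈ U ∩ S := ⟨hbU hsy, hs⟩
        rw [hUS] at this
        exact congrArg Subtype.val this
      · have hmem : (S ∪ {1})ᶜ ∈ 𝓝 (⟨y, hy⟩ : H) := by
          apply hcl.isOpen_compl.mem_nhds
          rintro (h | h)
          · exact hyS h
          · exact hy1 (congrArg Subtype.val h)
        obtain ⟨b, -, hbU⟩ := hB.mem_iff.mp hmem
        refine ⟨b, ?_⟩
        rintro _ ⟨s, hs, rfl⟩ hsy
        exact (hbU hsy (Or.inl hs)).elim)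
  have hB := nhds_basis_sub hbasis H ⟨x, hx⟩
  obtain ⟨z, hz1, hz2⟩ := (mem_closure_iff_nhds.mp (hdense ⟨x, hx⟩)) _ (hB.mem_of_mem (i := d) trivial)
  refine hno z.1 ?_ hz1
  have : (Subgroup.closure S).map H.subtype = Subgroup.closure (Subtype.val '' S) := by
    rw [MonoidHom.map_closure]
    rfl
  rw [← this]
  exact ⟨z, hz2, rfl⟩

theorem countable_Iio_of_lt (o : Ordinal.{0}) (ho : o < Ordinal.omega.{0} 1) :
    (Iio o).Countable := by
  rw [← Cardinal.le_aleph0_iff_set_countable, Cardinal.mk_Iio_ordinal, Cardinal.lift_le_aleph0]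
  rw [← Cardinal.ord_aleph, Cardinal.lt_ord] at ho
  rw [← Order.lt_succ_iff, Cardinal.succ_aleph0]
  exact ho

theorem omega_one_countable (d : Set.Iio (Ordinal.omega.{0} 1)) : (Iio d).Countable := by
  have h1 : (Iio d.1).Countable := countable_Iio_of_lt d.1 d.2
  have : Iio d = Subtype.val ⁻¹' (Iio d.1) := rfl
  rw [this]
  exact h1.preimage_of_injOn Subtype.val_injective.injOn

theorem cof_omega_one : (Ordinal.lift.{1, 0} (Ordinal.omega.{0} 1)).cof = Cardinal.aleph 1 := by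
  rw [Ordinal.lift_omega, Ordinal.lift_one, ← Cardinal.ord_aleph,
    Cardinal.isRegular_aleph_one.cof_ord]

theorem omega_one_bounded (s : Set (Set.Iio (Ordinal.omega.{0} 1))) (hs : s.Countable) :
    ∃ b, ∀ a ∈ s, a < b := by
  have := hs.to_subtype
  have hlim : Order.IsSuccLimit (Ordinal.omega.{0} 1) := by
    rw [← Cardinal.ord_aleph]
    exact Cardinal.isSuccLimit_ord (Cardinal.aleph0_le_aleph 1)
  have h : (⨆ a : s, Order.succ (a.1.1 : Ordinal.{0})) < Ordinal.omega.{0} 1 := by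
    apply Ordinal.lift_iSup_lt_of_lt_cof
    · rw [cof_omega_one]
      refine lt_of_le_of_lt ?_ Cardinal.aleph0_lt_aleph_one
      rw [Cardinal.lift_le_aleph0]
      exact Cardinal.mk_le_aleph0
    · intro a
      exact hlim.succ_lt a.1.2
  refine ⟨⟨_, h⟩, fun a ha => ?_⟩
  have hbdd : BddAbove (Set.range fun a : s => Order.succ (a.1.1 : Ordinal.{0})) := by
    refine ⟨Ordinal.omega.{0} 1, ?_⟩
    rintro _ ⟨a, rfl⟩
    exact (hlim.succ_lt a.1.2).le
  have h2 : a.1 < ⨆ a : s, Order.succ (a.1.1 : Ordinal.{0}) :=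
    lt_of_lt_of_le (Order.lt_succ a.1) (le_ciSup hbdd ⟨a, ha⟩)
  exact h2

end Pool.Agent.MP_7b4824_gt
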