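import Mathlib
import Pool.Agent.MP_7b4824_gt.Topo

set_option autoImplicit false

namespace Pool.Agent.MP_7b4824_gt

open Set Filter Topology

universe u v

variable {I : Type v} [LinearOrder I] {G : I → Type u} [∀ i, Group (G i)]

theorem exists_bound_of_finite [NoMaxOrder I] [Nonempty I] {s : Set I} (hs : s.Finite) :
    ∃ b, ∀ a ∈ s, a < b := by
  obtain ⟨c, hc⟩ := hs.bddAbove
  obtain ⟨b, hb⟩ := exists_gt c
  exact ⟨b, fun a ha => lt_of_le_of_lt (hc ha) hb⟩

theorem directSum_suitable [NoMaxOrder I] [Nonempty I]
    [TopologicalSpace (∀ i, G i)] [IsTopologicalGroup (∀ i, G i)]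
    (hbasis : (𝓝 (1 : ∀ i, G i)).HasBasis (fun _ : I => True) (fun a => {x | ∀ b < a, x b = 1}))
    (H : Subgroup (∀ i, G i)) (hH : ∀ x ∈ H, {i | x i ≠ 1}.Finite) :
    ∃ S : Set H, DiscreteTopology S ∧ IsClosed (S ∪ {1}) ∧ Subgroup.closure S = ⊤ := by
  classical
  let S : Set H := {x | x ≠ 1 ∧ ∀ b, trunc b x.1 ∈ H → trunc b x.1 = 1 ∨ trunc b x.1 = x.1}
  have sep : ∀ y : H, y ≠ 1 → ∃ b, ∀ s ∈ S, (∀ a < b, s.1 a = y.1 a) → s = y := by
    intro y hy
    obtain ⟨b, hb⟩ := exists_bound_of_finite (hH y.1 y.2)
    refine ⟨b, fun s hs hsy => ?_⟩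
    have h1 : trunc b s.1 = y.1 := by
      funext a
      rw [trunc_apply]
      split_ifs with h
      · exact hsy a h
      · by_contra hne
        exact h (hb a (fun h' => hne h'.symm))
    rcases hs.2 b (by rw [h1]; exact y.2) with h | h
    · exact absurd (Subtype.ext (h1.symm.trans h)) hy
    · exact Subtype.ext (h.symm.trans h1)
  have hT1 : ∀ y z : H, y ≠ z → ∃ b, ∃ a < b, y.1 a ≠ z.1 a := by
    intro y z hyz
    have : ∃ a, y.1 a ≠ z.1 a := by
      by_contra hcon
      push Not at hcon
      exact hyz (Subtype.ext (funext hcon))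
    obtain ⟨a, ha⟩ := this
    obtain ⟨b, hb⟩ := exists_gt a
    exact ⟨b, a, hb, ha⟩
  refine ⟨S, ?_, ?_, ?_⟩
  · rw [discreteTopology_subtype_iff]
    intro y hy
    obtain ⟨b, hb⟩ := sep y hy.1
    rw [inf_principal_eq_bot, mem_nhdsWithin_iff_exists_mem_nhds_inter]
    refine ⟨_, (nhds_basis_sub hbasis H y).mem_of_mem (i := b) trivial, ?_⟩
    rintro s ⟨hs1, hs2⟩ hsS
    exact hs2 (hb s hsS hs1)
  · rw [← isOpen_compl_iff, isOpen_iff_mem_nhds]
    intro y hy
    have hy1 : y ≠ 1 := fun h => hy (Or.inr h)
    have hyS : y ∉ S := fun h => hy (Or.inl h)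
    obtain ⟨b, hb⟩ := sep y hy1
    obtain ⟨c, a, hac, ha⟩ := hT1 y 1 hy1
    refine mem_of_superset ((nhds_basis_sub hbasis H y).mem_of_mem (i := max b c) trivial) ?_
    rintro s hs (h | h)
    · apply hyS
      rw [← hb s h (fun a ha => hs a (lt_of_lt_of_le ha (le_max_left _ _)))]
      exact h
    · rw [mem_singleton_iff] at h
      subst h
      exact ha (hs a (lt_of_lt_of_le hac (le_max_right _ _))).symm
  · rw [eq_top_iff]
    have key : ∀ k : ℕ, ∀ x : H, (hH x.1 x.2).toFinset.card = k → x ∈ Subgroup.closure S := by
      intro k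
      induction k using Nat.strong_induction_on with
      | _ k ih =>
        intro x hx
        by_cases hx1 : x = 1
        · rw [hx1]; exact one_mem _
        by_cases hxS : x ∈ S
        · exact Subgroup.subset_closure hxS
        have : ∃ b, trunc b x.1 ∈ H ∧ trunc b x.1 ≠ 1 ∧ trunc b x.1 ≠ x.1 := by
          by_contra hcon
          push Not at hcon
          apply hxS
          refine ⟨hx1, fun b hb => ?_⟩
          by_cases h : trunc b x.1 = 1
          · exact Or.inl h
          · exact Or.inr (hcon b hb h)
        obtain ⟨b, hb1, hb2, hb3⟩ := this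
        let y : H := ⟨trunc b x.1, hb1⟩
        let z : H := y⁻¹ * x
        have hz : ∀ a, z.1 a = if a < b then 1 else x.1 a := by
          intro a
          change (trunc b x.1 a)⁻¹ * x.1 a = _
          rw [trunc_apply]
          split_ifs <;> simp
        have hy : ∀ a, y.1 a = if a < b then x.1 a else 1 := fun a => rfl
        have hya : ∃ a, a < b ∧ x.1 a ≠ 1 := by
          by_contra hcon
          push Not at hcon
          apply hb2
          funext a
          rw [trunc_apply]
          split_ifs with h
          · exact hcon a h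
          · rfl
        have hza : ∃ a, ¬ a < b ∧ x.1 a ≠ 1 := by
          by_contra hcon
          push Not at hcon
          apply hb3
          funext a
          rw [trunc_apply]
          split_ifs with h
          · rfl
          · exact (hcon a (not_lt.mp h)).symm
        have hyc : y ∈ Subgroup.closure S := by
          refine ih _ ?_ y rfl
          rw [← hx]
          apply Finset.card_lt_card
          refine ⟨?_, ?_⟩
          · intro a ha
            simp only [Finite.mem_toFinset, mem_ofPred_eq, hy] at ha ⊢
            split_ifs at ha with h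
            · exact ha
            · exact (ha rfl).elim
          · intro hsub
            obtain ⟨a, ha1, ha2⟩ := hza
            have := hsub (show a ∈ (hH x.1 x.2).toFinset by simpa using ha2)
            simp only [Finite.mem_toFinset, mem_ofPred_eq, hy, if_neg ha1] at this
            exact this rfl
        have hzc : z ∈ Subgroup.closure S := by
          refine ih _ ?_ z rfl
          rw [← hx]
          apply Finset.card_lt_card
          refine ⟨?_, ?_⟩
          · intro a ha
            simp only [Finite.mem_toFinset, mem_ofPred_eq, hz] at ha ⊢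
            split_ifs at ha with h
            · exact (ha rfl).elim
            · exact ha
          · intro hsub
            obtain ⟨a, ha1, ha2⟩ := hya
            have := hsub (show a ∈ (hH x.1 x.2).toFinset by simpa using ha2)
            simp only [Finite.mem_toFinset, mem_ofPred_eq, hz, if_pos ha1] at this
            exact this rfl
        have : x = y * z := by simp [z]
        rw [this]
        exact mul_mem hyc hzc
    intro x _
    exact key _ x rfl

end Pool.Agent.MP_7b4824_gt
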